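import Pool.Agent.Q22.PL.Fin

/-!
# Schneider's conjecture: all twists and all fields of `3^K`-th roots of unity, for `p = 5, 11, 29, 41, ...`

Let `L` be the field of the `3^K`-th roots of unity, `p ≥ 5` and `r ≥ 2`. The vanishing of
`Ш¹(O_{L,S}, ℤ_p(r))` is equivalent to the nonvanishing of the values `L_p(r, ψ ω^(1-r))` for the primitive
characters `ψ` modulo `3^k`, `k ≤ K`, with `ψ(-1) = (-1)^(r-1)` (the main conjecture for abelian fields). Here

  `L_p(r, ψ ω^(1-r)) = lim_N 1/((r-1) F p^N) ∑_{0 ≤ a < F p^N, p ∤ a} ψ(a) a^(1-r)`, `F` the modulus of `ψ`.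

* For every prime `p ≥ 5` we show that this limit exists and is a unit for all `r ≥ 2` and all characters `ψ` whose
  conductor is divisible by a large power of `2` or of `3` (explicit bound): only finitely many characters of
  conductor `N₁ 3^k` (or `N₁ 2^k`) are left, for all `r` together.
* For the primes `5, 11, 29, 41, 83, 137, 167, 173, 191, 227, 239` all characters of conductor `3^k` are settled, and
  for seven further primes all but one class of `r` modulo `p - 1` for `k ≤ 1`.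

Proof: the value is congruent modulo `p` to a generalized Bernoulli number divided by its index, by comparison of
Riemann sums, and these are units by `MP_c2a07f_nt.ManyPrimesPowersOfThree` (kernel computation).
-/

set_option autoImplicit false

namespace Pool.Agent.Results.MP_59f3ad_nt.AllTwistsPowersOfThree

open Finset Filter Topology

/-- The approximants `1/((r-1) F p^N) ∑_{0 ≤ a < F p^N, p ∤ a} ψ(a) a^{1-r}` of `L_p(r, ψ ω^{1-r})`, for a Dirichlet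
character `ψ` modulo `F` with values in `ℂ_p`. -/
noncomputable def approximant (p : ℕ) [Fact p.Prime] {F : ℕ} (ψ : DirichletCharacter ℂ_[p] F) (r N : ℕ) : ℂ_[p] :=
  (∑ a ∈ (range (F * p ^ N)).filter (fun a => ¬ p ∣ a), ψ (a : ZMod F) * ((a : ℂ_[p]) ^ (r - 1))⁻¹) /
    (((r : ℂ_[p]) - 1) * ((F : ℂ_[p]) * (p : ℂ_[p]) ^ N))

/-- `L_p(r, ψ ω^{1-r})` exists and is equal to `z`. -/
def HasValue (p : ℕ) [Fact p.Prime] {F : ℕ} (ψ : DirichletCharacter ℂ_[p] F) (r : ℕ) (z : ℂ_[p]) : Prop :=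
  Tendsto (fun N => approximant p ψ r N) atTop (𝓝 z)

/-- The primes `p`, each with the number `m₀` of the excepted class: for `k ≤ 1` the `r` with
`r ≡ 1 - m₀ (mod p - 1)` are excepted; `m₀ = 0` means that there is no exception. -/
def table : List (ℕ × ℕ) :=
  [(5, 0), (11, 0), (23, 17), (29, 0), (41, 0), (47, 13), (59, 44), (83, 0), (101, 68), (113, 55), (131, 22), (137, 0),
    (149, 130), (167, 0), (173, 0), (191, 0), (227, 0), (239, 0)]

/-- **All twists at once.** (1) Let `p ≥ 5` be a prime, `ℓ = 2` or `3`, `N₁` prime to `ℓ p`, `g` even with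
`φ(N₁) ∣ p^g - 1`, `ℓ^n` the exact power of `ℓ` in `p^g - 1` and `(p - 1) N₁ ℓ^(2n) ≤ ℓ^K`. Then
`L_p(r, ψ ω^{1-r})` exists and is a unit for all `r ≥ 2` and all `ψ` modulo `N₁ ℓ^K` with conductor divisible by
`ℓ^K` and `ψ(-1) = (-1)^(r-1)`. (2) Let `(p, m₀)` be in the table, `K ≥ 0`, `r ≥ 2` and `ψ` a primitive character
modulo `3^K` with `ψ(-1) = (-1)^(r-1)`; if `K ≤ 1` and `m₀ ≠ 0` suppose that `r` is not `1 - m₀` modulo `p - 1`. Then
`L_p(r, ψ ω^{1-r})` exists and is not zero, and it is a unit, unless `K = 0` and `r ≡ 1 (mod p - 1)`. -/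
theorem result :
    (∀ (p : ℕ) [Fact p.Prime], 5 ≤ p → ∀ ℓ : ℕ, ℓ = 2 ∨ ℓ = 3 → ∀ N₁ g n K : ℕ,
      N₁.Coprime ℓ → ¬ p ∣ N₁ → Even g → N₁.totient ∣ p ^ g - 1 → ℓ ^ n ∣ p ^ g - 1 → ¬ ℓ ^ (n + 1) ∣ p ^ g - 1 →
      (p - 1) * N₁ * ℓ ^ (2 * n) ≤ ℓ ^ K → ∀ r : ℕ, 2 ≤ r → ∀ ψ : DirichletCharacter ℂ_[p] (N₁ * ℓ ^ K),
      ℓ ^ K ∣ ψ.conductor → ψ (-1) = (-1) ^ (r - 1) → ∃ z, ‖z‖ = 1 ∧ HasValue p ψ r z) ∧
    (∀ (p m₀ : ℕ) [Fact p.Prime], (p, m₀) ∈ table → ∀ K r : ℕ, 2 ≤ r → ∀ ψ : DirichletCharacter ℂ_[p] (3 ^ K),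
      ψ.IsPrimitive → ψ (-1) = (-1) ^ (r - 1) → (K ≤ 1 → m₀ = 0 ∨ ¬ p - 1 ∣ r - 1 + m₀) →
      ∃ z, z ≠ 0 ∧ (¬ (K = 0 ∧ p - 1 ∣ r - 1) → ‖z‖ = 1) ∧ HasValue p ψ r z) := by
  refine ⟨?_, ?_⟩
  · intro p _ h5 ℓ hℓ N₁ g n K hN₁ hpN hg hφ hn hn' hsize r hr ψ hc hpar
    exact Pool.Agent.Q22.PL.large (E := ℂ_[p]) h5 hℓ hN₁ hpN hg hφ hn hn' hsize hr ψ hc hpar
  · intro p m₀ _ hp K r hr ψ hprim hpar hK1
    have h5 : 5 ≤ p := by
      simp only [table, List.mem_cons, Prod.mk.injEq, List.not_mem_nil, or_false] at hp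
      omega
    refine Pool.Agent.Q22.PL.table_general (E := ℂ_[p]) h5 m₀ ?_ hr ψ hprim hpar hK1
    intro K m hm1 hmp hK0 hK1' ψ' hprim' hpar'
    rw [table, List.mem_cons] at hp
    rcases hp with hp | hp
    · obtain ⟨rfl, rfl⟩ := Prod.mk.injEq _ _ _ _ ▸ hp
      exact Pool.Agent.Results.MP_c2a07f_nt.FiveAndPowersOfThree.result K m hm1 hmp hK0 ψ' hprim' hpar'
    · exact Pool.Agent.Results.MP_c2a07f_nt.ManyPrimesPowersOfThree.result p m₀ hp K m hm1 hmp hK0 hK1' ψ' hprim' hpar'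

end Pool.Agent.Results.MP_59f3ad_nt.AllTwistsPowersOfThree
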