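import Pool.Agent.Q22.LP.Fin

/-!
# Many number fields of every signature with a real place satisfy Leopoldt's conjecture at all
primes up to a power of the discriminant

`n = s + 2 u`.  The fields are generated by the roots of `F_t = (X - t) G - 1`, `G` a fixed product
of linear polynomials and of quadratic polynomials without real roots.  By the starting result
`AllPrimesUpToABound` Leopoldt's conjecture (Schneider's conjecture for `r = 1`) holds at all primes
of a set `A` for all but `(n - 1) ∑_{p ∈ A} p + C` of the `t`.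

The discriminant is at most a constant times `t ^ (2 (n - 1))`, by Mahler's inequality, since the
Mahler measure of `F_t` is at most a constant times `t`.  If `F_t` has a root `θ` in `K` then
`θ - t` is a unit all of whose conjugates are at most a constant times `t`; `K` has at most
`C (log t) ^ (n - 1)` such units, and each unit comes from at most `n - 1` values of `t`.
-/

set_option autoImplicit false

namespace Pool.Agent.Results.MP_59f3ad_nt.ManyFieldsAllPrimes

open NumberField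
open Pool.Agent.W254.LF (LeopoldtAt)

/-- there are at least `N` pairwise non-isomorphic number fields with exactly `s` real and `u`
complex places, whose discriminant has absolute value at most `X`, and which satisfy Leopoldt's
conjecture at all primes of `A` -/
def ManyFields (s u : ℕ) (X : ℝ) (A : Set ℕ) (N : ℝ) : Prop :=
  ∃ (q : ℕ) (K : Fin q → Type) (_ : ∀ i, Field (K i)) (_ : ∀ i, NumberField (K i)),
    N ≤ q ∧ (∀ i j, i ≠ j → IsEmpty (K i ≃+* K j)) ∧
    ∀ i, InfinitePlace.nrRealPlaces (K i) = s ∧ InfinitePlace.nrComplexPlaces (K i) = u ∧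
      |(discr (K i) : ℝ)| ≤ X ∧ ∀ (p : ℕ) [Fact p.Prime], p ∈ A → LeopoldtAt (K i) p

theorem result (s u : ℕ) (hs : 1 ≤ s) (hsu : 2 ≤ s + u) :
    ∃ c X₀ : ℝ, 0 < c ∧ ∀ X : ℝ, X₀ ≤ X →
      (∀ A : Finset ℕ, (∀ p ∈ A, p.Prime) →
        ∑ p ∈ A, (p : ℝ) ≤ c * X ^ ((1 : ℝ) / (2 * (s + 2 * u - 1) : ℕ)) →
          ManyFields s u X A
            (c * X ^ ((1 : ℝ) / (2 * (s + 2 * u - 1) : ℕ)) / Real.log X ^ (s + 2 * u - 1))) ∧
      ManyFields s u X {p | p.Prime ∧ (p : ℝ) ≤ c * X ^ ((1 : ℝ) / (4 * (s + 2 * u - 1) : ℕ))}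
        (c * X ^ ((1 : ℝ) / (2 * (s + 2 * u - 1) : ℕ)) / Real.log X ^ (s + 2 * u - 1)) := by
  classical
  obtain ⟨a, rfl⟩ : ∃ a, s = a + 1 := ⟨s - 1, by omega⟩
  obtain ⟨c, hc, X₀, h⟩ := Pool.Agent.Q22.LP.final a u (by omega)
  rw [show a + 1 + 2 * u - 1 = a + 2 * u by omega]
  obtain ⟨m, hm⟩ : ∃ m : ℕ, m = a + 2 * u := ⟨_, rfl⟩
  rw [← hm] at h ⊢
  have hm1 : 1 ≤ m := by omega
  obtain ⟨c', hc'⟩ : ∃ c' : ℝ, c' = min 1 c := ⟨_, rfl⟩
  have h1 : 0 < c' := by rw [hc']; exact lt_min one_pos hc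
  have h2 : c' ≤ c := by rw [hc']; exact min_le_right _ _
  have h3 : c' ≤ 1 := by rw [hc']; exact min_le_left _ _
  refine ⟨c', max X₀ 2, h1, fun X hX => ?_⟩
  have hX0 : X₀ ≤ X := (le_max_left _ _).trans hX
  have hX2 : 2 ≤ X := (le_max_right _ _).trans hX
  have hXp : 0 < X := by linarith
  have hlog : 0 < Real.log X := Real.log_pos (by linarith)
  have hZ : 0 < X ^ ((1 : ℝ) / (2 * m : ℕ)) := Real.rpow_pos_of_pos hXp _
  have key : ∀ A : Finset ℕ, (∀ p ∈ A, p.Prime) →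
      ∑ p ∈ A, (p : ℝ) ≤ c' * X ^ ((1 : ℝ) / (2 * m : ℕ)) →
        ManyFields (a + 1) u X A (c' * X ^ ((1 : ℝ) / (2 * m : ℕ)) / Real.log X ^ m) := by
    intro A hA hAX
    obtain ⟨q, K, hF, hN, h4, h5, h6⟩ := h X hX0 A hA
      (hAX.trans (mul_le_mul_of_nonneg_right h2 hZ.le))
    refine ⟨q, K, hF, hN, le_trans ?_ h4, h5, h6⟩
    apply div_le_div_of_nonneg_right _ (by positivity)
    exact mul_le_mul_of_nonneg_right h2 hZ.le
  refine ⟨key, ?_⟩
  obtain ⟨W, hW⟩ : ∃ W : ℝ, W = X ^ ((1 : ℝ) / (4 * m : ℕ)) := ⟨_, rfl⟩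
  have hW0 : 0 < W := by rw [hW]; exact Real.rpow_pos_of_pos hXp _
  have hWZ : W ^ 2 = X ^ ((1 : ℝ) / (2 * m : ℕ)) := by
    rw [hW, ← Real.rpow_natCast, ← Real.rpow_mul hXp.le]
    congr 1
    have : (m : ℝ) ≠ 0 := by
      have : (0 : ℝ) < m := by exact_mod_cast hm1
      exact this.ne'
    push_cast
    field_simp
    norm_num
  obtain ⟨y, hy⟩ : ∃ y : ℕ, y = ⌊c' * W⌋₊ := ⟨_, rfl⟩
  have hy1 : (y : ℝ) ≤ c' * W := by rw [hy]; exact Nat.floor_le (by positivity)
  obtain ⟨q, K, hF, hN, h4, h5, h6⟩ := key ((Finset.range (y + 1)).filter Nat.Prime)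
    (fun p hp => (Finset.mem_filter.1 hp).2) (by
      have h7 := Pool.Agent.Results.MP_59f3ad_nt.AllPrimesUpToABound.sum_primes_le y
      have h8 : ∑ p ∈ (Finset.range (y + 1)).filter Nat.Prime, (p : ℝ) ≤ (y : ℝ) ^ 2 := by
        rw [← Nat.cast_sum, ← Nat.cast_pow, Nat.cast_le]
        convert h7
      refine h8.trans ?_
      rw [← hWZ]
      calc (y : ℝ) ^ 2 ≤ (c' * W) ^ 2 := pow_le_pow_left₀ (Nat.cast_nonneg _) hy1 2
        _ = c' * c' * W ^ 2 := by ring
        _ ≤ c' * 1 * W ^ 2 := by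
            apply mul_le_mul_of_nonneg_right _ (by positivity)
            exact mul_le_mul_of_nonneg_left h3 h1.le
        _ = _ := by ring)
  refine ⟨q, K, hF, hN, h4, h5, fun i => ?_⟩
  obtain ⟨h7, h8, h9, h10⟩ := h6 i
  refine ⟨h7, h8, h9, fun p hpp hp => h10 p ?_⟩
  rw [Finset.coe_filter, Set.mem_ofPred_eq, Finset.mem_range]
  refine ⟨?_, hp.1⟩
  have : p ≤ y := by
    rw [hy]
    apply Nat.le_floor
    rw [hW]
    exact hp.2
  omega

end Pool.Agent.Results.MP_59f3ad_nt.ManyFieldsAllPrimes
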