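import Pool.Agent.Q244.TD.Conj
import Pool.Agent.Q244.TD.Inv

/-!
# The case `r = 1` (Leopoldt's conjecture): one Galois representation for all number fields

For `r = 1` the vanishing of `Sha^1(O_{L,S}, ℤ_p(1))` is Leopoldt's conjecture for `L` and `p`: the map
`x ↦ (log_p σ x)_σ` on `ℂ_p ⊗ 𝓞_K^×` is injective.  Let `A` be a subspace of `ℂ_p` of finite dimension `m`
over the algebraic numbers.  For a number field `K` let `Kernel K` be the `ℂ_p`-space generated by the
`x ∈ ℂ_p ⊗ 𝓞_K^×` with coordinates in `A` (sums of tensors `a ⊗ u`, `a ∈ A`) which are killed by this map;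
its dimension is the part of the Leopoldt defect of `K` which is due to relations with exponents in `A`.

The theorem: there is one number field `F ⊆ ℂ_p`, normal over `ℚ`, such that

(1) units `ε_i` of any number field `K` which satisfy Leopoldt relations `∑ a_i log_p (τ ε_i) = 0` (for all
embeddings `τ`) with `a_i ∈ A` linearly independent over `ℚ` have powers which lie in `F` under each
embedding;

(2) for each number field `K` and embedding `σ` the dimension of `Kernel K` is the dimension of the space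
of the vectors of `Kernel F` which are fixed by the automorphisms of `F` which fix `F ∩ σ K`;

(3) the dimension of `Kernel F` is at most `m (m - 1)` (and satisfies the other bounds in `Bounds`);

(4) `Gal(F/ℚ)` acts faithfully on `Kernel F`, so it is a finite subgroup of `GL_n(ℂ_p)`, `n ≤ m (m - 1)`;

(5) on each Galois stable subspace `W ≠ 0` of `Kernel F` each complex conjugation has a space of fixed
vectors of dimension at least `2` (in particular there are no stable lines);

(6) if `m ≤ 2` then `F` is totally real, and `Kernel F` is `0` or irreducible of dimension `2`; if `m ≤ 2`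
and `K` has no totally real subfields other than `ℚ` then `Kernel K = 0`.

Proof.  By the `p`-adic hyperplane theorem (a case of the linear subgroup theorem) and Brumer's theorem
there is a field `F` with (1).  If `F` has minimal degree then (4) holds: the field fixed by the
automorphisms which act trivially has (1), too, since the units which occur in a relation with
coefficients linearly independent over `ℚ` are determined up to torsion by the relation.  (2) follows from
the same remark and averaging.  (5) If the space of fixed vectors is a line then `W` is the full isotypic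
component of an irreducible representation in `ℂ_p ⊗ 𝓞_F^×`, so it contains vectors with algebraic
coordinates, which contradicts Brumer's theorem.
-/

set_option autoImplicit false

namespace Pool.Agent.Results.MP_59f3ad_nt.OneRepresentation

open NumberField Module TensorProduct
open Pool.Agent.W289.SL (IsIwasawaLog)
open Pool.Agent.W332.SL7 (QSub FinQ Bounds dimQ)

section generic

variable {Ω : Type} [Field Ω] [CharZero Ω] (L : Ω → Ω) (A : QSub Ω)

variable (Ω) in
/-- `Ω ⊗ 𝓞_K^×` -/
abbrev U (K : Type) [Field K] [NumberField K] : Type := Ω ⊗[ℤ] Additive (𝓞 K)ˣ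

/-- The action of an automorphism of `F` on `Ω ⊗ 𝓞_F^×`. -/
noncomputable def act {F : Type} [Field F] [NumberField F] (γ : F ≃ₐ[ℚ] F) : U Ω F →ₗ[Ω] U Ω F :=
  (MonoidHom.toAdditive
    (Units.map (RingOfIntegers.mapRingHom (γ : F →+* F)).toMonoidHom)).toIntLinearMap.baseChange Ω

/-- `x = ∑ a_i ⊗ u_i` with `a_i ∈ A` and `∑ a_i L (σ u_i) = 0` for all embeddings `σ`. -/
def InKernel {K : Type} [Field K] [NumberField K] (x : U Ω K) : Prop :=
  ∃ (n : ℕ) (a : Fin n → Ω) (u : Fin n → (𝓞 K)ˣ), (∀ i, a i ∈ A) ∧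
    x = ∑ i, a i ⊗ₜ[ℤ] Additive.ofMul (u i) ∧
    ∀ σ : K →+* Ω, ∑ i, a i * L (σ ((u i : 𝓞 K) : K)) = 0

/-- The `Ω`-space spanned by these elements. -/
def Kernel (K : Type) [Field K] [NumberField K] : Submodule Ω (U Ω K) :=
  Submodule.span Ω {x | InKernel L A x}

/-- The dimension of this space. -/
noncomputable def defect (K : Type) [Field K] [NumberField K] : ℕ := finrank Ω (Kernel L A K)

/-- (1) -/
def PowersIn (F : IntermediateField ℚ Ω) : Prop :=
  ∀ (n : ℕ) (K : Type) [Field K] [NumberField K] (σ : K →+* Ω) (ε : Fin n → (𝓞 K)ˣ)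
    (a : Fin n → Ω), (∀ i, a i ∈ A) →
    (∀ w : Fin n → ℚ, ∑ i, (w i : Ω) * a i = 0 → w = 0) →
    (∀ τ : K →+* Ω, ∑ i, a i * L (τ ((ε i : 𝓞 K) : K)) = 0) →
    ∀ i, ∃ m : ℕ, 1 ≤ m ∧ σ ((ε i : 𝓞 K) : K) ^ m ∈ F

/-- The automorphism `γ` of `F` fixes the elements of `F` in the image of `σ`. -/
def Fixes {K : Type} [Field K] {F : IntermediateField ℚ Ω} (σ : K →+* Ω) (γ : F ≃ₐ[ℚ] F) : Prop :=
  ∀ y : F, (y : Ω) ∈ σ.range → γ y = y

/-- The vectors `x` of `W` with `γ x = x` for all `γ` in `S`. -/
def invariants {F : Type} [Field F] [NumberField F] (S : Set (F ≃ₐ[ℚ] F))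
    (W : Submodule Ω (U Ω F)) : Submodule Ω (U Ω F) where
  carrier := {x | x ∈ W ∧ ∀ γ ∈ S, act γ x = x}
  add_mem' := by
    rintro x y ⟨hx, hx'⟩ ⟨hy, hy'⟩
    exact ⟨add_mem hx hy, fun γ hγ => by rw [map_add, hx' γ hγ, hy' γ hγ]⟩
  zero_mem' := ⟨zero_mem _, fun γ _ => map_zero _⟩
  smul_mem' := by
    rintro c x ⟨hx, hx'⟩
    exact ⟨Submodule.smul_mem _ _ hx, fun γ hγ => by rw [map_smul, hx' γ hγ]⟩

/-- The dimension of the space of these vectors. -/
noncomputable def dimInv {F : Type} [Field F] [NumberField F] (S : Set (F ≃ₐ[ℚ] F))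
    (W : Submodule Ω (U Ω F)) : ℕ := finrank Ω (invariants S W)

/-- (2) -/
def AllFields (F : IntermediateField ℚ Ω) [NumberField F] : Prop :=
  ∀ (K : Type) [Field K] [NumberField K] (σ : K →+* Ω),
    defect L A K = dimInv {γ | Fixes σ γ} (Kernel L A F)

/-- `W` is stable under the Galois group. -/
def Stable {F : Type} [Field F] [NumberField F] (W : Submodule Ω (U Ω F)) : Prop :=
  ∀ γ : F ≃ₐ[ℚ] F, ∀ x ∈ W, act γ x ∈ W

variable (Ω) in
/-- There is an injective homomorphism from `G` to `GL_n(Ω)`. -/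
def EmbedsGL (G : Type) [Group G] (n : ℕ) : Prop := ∃ ρ : G →* GL (Fin n) Ω, Function.Injective ρ

/-- (4) -/
def Faithful (F : Type) [Field F] [NumberField F] : Prop :=
  (∀ γ : F ≃ₐ[ℚ] F, (∀ x ∈ Kernel L A F, act γ x = x) → γ = 1) ∧
  EmbedsGL Ω (F ≃ₐ[ℚ] F) (defect L A F)

/-- (5) -/
def TwoFixed (F : Type) [Field F] [NumberField F] : Prop :=
  ∀ W : Submodule Ω (U Ω F), Stable W → W ≤ Kernel L A F → W ≠ ⊥ →
    ∀ (s : F →+* ℂ) (c : F ≃ₐ[ℚ] F), (∀ y, s (c y) = starRingEnd ℂ (s y)) →
      2 ≤ dimInv {c} W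

/-- (6) -/
def DimTwo (F : Type) [Field F] [NumberField F] : Prop :=
  IsTotallyReal F ∧
  (∀ W : Submodule Ω (U Ω F), Stable W → W ≤ Kernel L A F → W ≠ ⊥ →
    W = Kernel L A F ∧ finrank Ω W = 2) ∧
  ∀ (K : Type) [Field K] [NumberField K],
    (∀ K₀ : IntermediateField ℚ K, IsTotallyReal K₀ → K₀ = ⊥) → Kernel L A K = ⊥

/-- All the properties of `F`. -/
def IsTheField (F : IntermediateField ℚ Ω) [NumberField F] : Prop :=
  Normal ℚ F ∧
  -- (1), (2)
  PowersIn L A F ∧ AllFields L A F ∧
  -- (3)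
  defect L A F ≤ dimQ A * (dimQ A - 1) ∧ Bounds A (defect L A F) ∧
  -- (4), (5), (6)
  Faithful L A F ∧ TwoFixed L A F ∧ (dimQ A ≤ 2 → DimTwo L A F)

/-- There is such a field. -/
def OneField : Prop := ∃ (F : IntermediateField ℚ Ω) (_ : NumberField F), IsTheField L A F

end generic

section aux

open Pool.Agent.W289.SL Pool.Agent.W332.SL6 Pool.Agent.Q244.LK Pool.Agent.Q244.TD

variable {p : ℕ} [Fact p.Prime] {L : ℂ_[p] → ℂ_[p]} (hL : IsIwasawaLog p L) (A : QSub ℂ_[p])

private theorem act_eq {F : Type} [Field F] [NumberField F] (γ : F ≃ₐ[ℚ] F) (x : UM p F) :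
    act γ x = push (γ : F →+* F) x := rfl

private theorem kernel_eq (K : Type) [Field K] [NumberField K] : Kernel L A K = KSp hL A K := by
  have h : ∀ x : UM p K, InKernel L A x ↔ InKer hL A x := by
    intro x
    constructor
    · rintro ⟨n, a, u, ha, rfl, h⟩
      refine ⟨coords_sum _ _ ha, fun σ => ?_⟩
      rw [map_sum, ← h σ]
      exact Finset.sum_congr rfl fun i _ => rfl
    · rintro ⟨h1, h2⟩
      obtain ⟨n, c, u, hc, -, rfl⟩ := rep A x h1
      refine ⟨n, c, fun i => Additive.toMul (u i), hc, rfl, fun σ => ?_⟩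
      rw [← h2 σ, map_sum]
      exact Finset.sum_congr rfl fun i _ => rfl
  have h3 : {x : UM p K | InKernel L A x} = {x | InKer hL A x} := Set.ext h
  show Submodule.span ℂ_[p] {x : UM p K | InKernel L A x} = Submodule.span ℂ_[p] {x | InKer hL A x}
  rw [h3]

private theorem dim_two' {F : IntermediateField ℚ ℂ_[p]} [NumberField F] [IsGalois ℚ F]
    (h2 : PowersAll L A F) (hB : Bounds A (finrank ℂ_[p] (KSp hL A F))) (hm : dimQ A ≤ 2)
    (h3 : triv hL A F = ⊥) : DimTwo L A F := by
  obtain ⟨h4, h5⟩ := dim_two hL hB hm h3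
  refine ⟨h4, ?_, ?_⟩
  · rw [kernel_eq hL]
    exact h5
  · intro K _ _ hK
    rw [kernel_eq hL]
    obtain ⟨σ⟩ : Nonempty (K →+* ℂ_[p]) := inferInstance
    have h6 : IsTotallyReal (sub σ F) := by
      let := (rst σ F).toAlgebra
      have : Algebra.IsAlgebraic (sub σ F) F := Algebra.IsAlgebraic.tower_top (K := ℚ) (sub σ F)
      exact IsTotallyReal.of_algebra (sub σ F) F
    have h7 := hK _ h6
    rw [eq_bot_iff]
    refine Submodule.span_le.2 ?_
    intro x hx
    obtain ⟨x₁, h8, h9⟩ := descend_all hL h2 σ hx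
    have h10 : x₁ = 0 := by
      apply units_bot
      rw [h7]
      exact IntermediateField.finrank_bot
    rw [← h9, h10, map_zero]
    exact Submodule.zero_mem _

private theorem exists_gl (F : Type) [Field F] [NumberField F] (h3 : triv hL A F = ⊥) :
    ∃ ρ : (F ≃ₐ[ℚ] F) →* GL (Fin (finrank ℂ_[p] (KSp hL A F))) ℂ_[p], Function.Injective ρ := by
  have i1 : Module.Finite ℂ_[p] (UM p F) := um_finite
  let e := LinearMap.toMatrixAlgEquiv (Module.finBasis ℂ_[p] (KSp hL A F))
  let f := (e.toRingEquiv.toMulEquiv.toMonoidHom).comp (repr hL A F)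
  refine ⟨f.toHomUnits, ?_⟩
  intro γ δ h
  have h4 : f γ = f δ := congrArg Units.val h
  exact repr_inj hL A F h3 (e.injective h4)

include hL in
private theorem two_fixed (F : Type) [Field F] [NumberField F] [IsGalois ℚ F] :
    TwoFixed L A F := by
  intro W hW hWA hne s c hc
  rw [kernel_eq hL] at hWA
  have h4 := le_finrank hL hW hWA hne ⟨s, hc⟩
  have h5 : fixedIn c W = invariants {c} W := by
    ext x
    rw [mem_fixedIn]
    constructor
    · rintro ⟨h6, h7⟩
      exact ⟨h6, fun γ hγ => by rw [Set.mem_singleton_iff.1 hγ]; exact h7⟩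
    · rintro ⟨h6, h7⟩
      exact ⟨h6, h7 c rfl⟩
  rwa [h5] at h4

end aux

/-- **Main result.** -/
theorem result (p : ℕ) [Fact p.Prime] (L : ℂ_[p] → ℂ_[p]) (hL : IsIwasawaLog p L) (A : QSub ℂ_[p])
    (hA : FinQ A) :
    OneField L A := by
  classical
  obtain ⟨F, hN, h1, h2, h3⟩ := Pool.Agent.Q244.TD.exists_min hL A hA
  have hG : IsGalois ℚ F := { to_normal := h1, to_isSeparable := inferInstance }
  have hB := Pool.Agent.Q244.TD.bounds_KSp hL A hA F
  refine ⟨F, hN, h1, h2, fun K _ _ σ => ?_, ?_, ?_, ⟨fun γ hγ => ?_, ?_⟩, two_fixed hL A F,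
    fun hm => dim_two' hL A h2 hB hm h3⟩
  · rw [defect, kernel_eq hL, kernel_eq hL]
    exact Pool.Agent.Q244.TD.finrank_eq_inv hL A h2 K σ
  · rw [defect, kernel_eq hL]
    exact hB.dim
  · rw [defect, kernel_eq hL]
    exact hB
  · rw [kernel_eq hL] at hγ
    have h4 : γ ∈ Pool.Agent.Q244.TD.triv hL A F := by
      rw [Pool.Agent.Q244.TD.mem_triv]
      exact fun x hx => hγ x (Submodule.subset_span hx)
    rw [h3] at h4
    exact Subgroup.mem_bot.1 h4
  · rw [defect, kernel_eq hL]
    exact exists_gl hL A F h3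

end Pool.Agent.Results.MP_59f3ad_nt.OneRepresentation
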